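import Pool.Agent.Y127.G.KDefs

/-!
# Families of varieties of orthogonal type with maximal degenerations or K3 slopes: definitions
-/

set_option autoImplicit false

open CategoryTheory AlgebraicGeometry

universe u

namespace Pool.Agent.Q71.TM

open Pool.Agent.TH125.Gal Pool.Agent.Y127 Pool.Agent.Y127.G

/-- Local information: an element `g` of `Γ` (an element of an inertia group), or an element `F` of
`Γ` (a Frobenius element) with an additive function `v` on the multiplicative group of `K` (a
valuation) and a number `c`. -/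
inductive Loc (K : Type) [Field K] (Γ : Type) : Type
  | inertia (g : Γ)
  | frobenius (v : Additive Kˣ →+ ℚ) (F : Γ) (c : ℚ)

/-- The same element `g`, or the same element `F` and the same valuation. -/
def Loc.Same {K : Type} [Field K] {Γ : Type} : Loc K Γ → Loc K Γ → Prop
  | .inertia g, .inertia g' => g = g'
  | .frobenius v F _, .frobenius v' F' _ => v = v' ∧ F = F'
  | _, _ => False

section Alg

variable {K : Type} [Field K] {A : Type} [Ring A] [Algebra K A] [FiniteDimensional K A]
  {Γ : Type} [Group Γ]

/-- The operator `g - 1`. -/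
noncomputable def nil (ρ : Γ →* (A ≃ₐ[K] A)) (g : Γ) : A →ₗ[K] A :=
  (ρ g).toLinearMap - LinearMap.id

/-- The element `g` acts on the space `T` like a generator of the inertia group at a place of maximal
degeneration (type III): `(g - 1) ^ 3 = 0`, `(g - 1) ^ 2 ≠ 0`, and the image of `g - 1` has
dimension `2`. -/
def MaximalOn (ρ : Γ →* (A ≃ₐ[K] A)) (T : Submodule K A) (g : Γ) : Prop :=
  (∀ x ∈ T, nil ρ g (nil ρ g (nil ρ g x)) = 0) ∧ (∃ x ∈ T, nil ρ g (nil ρ g x) ≠ 0) ∧
    Module.finrank K (T.map (nil ρ g)) = 2

/-- The element `g` acts on the space `U` with `(g - 1) ^ 2 = 0`, and the dimension `d` of the image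
of `g - 1` satisfies `d ^ 2 + 2 < r`. -/
def MildOn (ρ : Γ →* (A ≃ₐ[K] A)) (U : Submodule K A) (g : Γ) (r : ℕ) : Prop :=
  (∀ x ∈ U, nil ρ g (nil ρ g x) = 0) ∧ Module.finrank K (U.map (nil ρ g)) ^ 2 + 2 < r

/-- The element `g` acts on `T` by a maximal degeneration; or `F` acts on `T` with the slopes `h + c`
and `h - c`, once each, and `h`, where `c > 0`. -/
def TypeOn (ρ : Γ →* (A ≃ₐ[K] A)) (T : Submodule K A) : Loc K Γ → Prop
  | .inertia g => MaximalOn ρ T g
  | .frobenius v F c => 0 < c ∧ ∃ (h : ℚ) (hT : ∀ x ∈ T, (ρ F).toLinearMap x ∈ T),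
      K3Slopes v ((ρ F).toLinearMap.restrict hT) h c

/-- The space `U` is small with respect to the rank `r`, locally: `g` acts on `U` with
`(g - 1) ^ 2 = 0` and the square of the rank of `g - 1` is smaller than `r - 2`; or the number of the
pairs of slopes of `F` on `U` with difference `c` is smaller than `r - 2`. -/
def LocSmallOn (ρ : Γ →* (A ≃ₐ[K] A)) (U : Submodule K A) (r : ℕ) : Loc K Γ → Prop
  | .inertia g => MildOn ρ U g r
  | .frobenius v F c => ∃ hU : ∀ x ∈ U, (ρ F).toLinearMap x ∈ U,
      gaps (slopes v ((ρ F).toLinearMap.restrict hU)) c + 2 < r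

/-- The space `U` is small with respect to `l` and the rank `r`: locally, or `U` carries a symmetric
form and `dim U < r`, or `U` carries an alternating form and `dim U + 1 < r`. -/
def SmallFor (ρ : Γ →* (A ≃ₐ[K] A)) (U : Submodule K A) (l : Loc K Γ) (r : ℕ) : Prop :=
  LocSmallOn ρ U r l ∨
  (FormOn ρ U 1 ∧ Module.finrank K U < r) ∨ (FormOn ρ U (-1) ∧ Module.finrank K U + 1 < r)

/-- The algebra is generated by finitely many stable subspaces which are small with respect to all
`l i`, `r i`. -/
def GenSmallFor {ι : Type} (l : ι → Loc K Γ) (r : ι → ℕ) (ρ : Γ →* (A ≃ₐ[K] A)) : Prop :=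
  ∃ (m : ℕ) (U : Fin m → Submodule K A), (∀ a i, SmallFor ρ (U a) (l i) (r i)) ∧
    (∀ a g, ∀ x ∈ U a, ρ g x ∈ U a) ∧ Algebra.adjoin K (⋃ a, (U a : Set A)) = ⊤

end Alg

open Pool.Agent.H914 Pool.Agent.H914.VarClass Pool.Agent.H914.VarClass.Obj
  Pool.Agent.H914.WeilCohomology

variable {k : Type u} [Field k] {𝒱 : VarClass k} {ops : CycleOps 𝒱}
  {W : WeilCohomology.{u, 0} ops} {Γ : Type} [Group Γ]

/-- `Γ` acts on the cohomology of `X` like a Galois group; numerical and homological equivalence
coincide for `X`; the dimension of `X` is even; the transcendental cohomology is in the middle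
degree, has rank `3` or at least `5`, is irreducible under all subgroups of finite index, and
satisfies `TypeOn`. -/
structure OrthType (χ : Γ →* W.Kˣ) (l : Loc W.K Γ) (X : GVar W Γ) : Prop where
  galois : GaloisType χ X
  homEqNum : HomEqNum W X.X
  even : Even X.X.dim
  middle : transcendental W X.X ≤ W.gr X.X X.X.dim
  rank : transRank W X.X = 3 ∨ 5 ≤ transRank W X.X
  irreducible : IrredAct X.act (transcendental W X.X)
  type : TypeOn X.act (transcendental W X.X) l

/-- The `X i` are of orthogonal type; the transcendental parts of different `X i` are not isomorphic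
up to a function on `Γ`; the local information agrees for those with rank `8`; and the cohomology
algebra of `Z` is generated by subspaces which are small with respect to all `X i`. -/
structure OrthFamily (χ : Γ →* W.Kˣ) {ι : Type} (l : ι → Loc W.K Γ) (X : ι → GVar W Γ)
    (Z : GVar W Γ) : Prop where
  orth : ∀ i, OrthType χ (l i) (X i)
  notIso : ∀ i j, i ≠ j → ¬TwistIso (X i).act (transcendental W (X i).X) (X j).act
    (transcendental W (X j).X)
  eight : ∀ i j, i ≠ j → transRank W (X i).X = 8 → transRank W (X j).X = 8 → (l i).Same (l j)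
  base : GenSmallFor l (fun i => transRank W (X i).X) Z.act

/-- All algebraic classes on `Y` are defined over the field with Galois group `Δ`. -/
def AlgDefinedOver (χ : Γ →* W.Kˣ) (Δ : Subgroup Γ) (Y : GVar W Γ) : Prop :=
  DefinedAct χ Δ (algClasses W Y.X) Y.act

/-- The discriminant character of `X`. -/
noncomputable def discriminant (χ : Γ →* W.Kˣ) (X : GVar W Γ) : Γ → W.K :=
  discrAct χ X.X.dim (transcendental W X.X) X.act

end Pool.Agent.Q71.TM
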