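import Pool.Agent.Q71.TM.Lin
import Pool.Agent.Y127.G.App
import Pool.Agent.Q71.TM.Defs

/-!
# Application to multilinear maps with values in an algebra
-/

set_option linter.unusedSectionVars false

namespace Pool.Agent.Q71.TM

open Module Finset Function Pool.Agent.TH118.SG Pool.Agent.TH125.Gal Pool.Agent.Y127.G
  Pool.Agent.Y127.C

variable {K : Type} [Field K] [CharZero K] [IsAlgClosed K] {Γ : Type} [Group Γ]

/-- the local condition for a representation -/
def LocRep (M : FRep K Γ) : Loc K Γ → Prop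
  | .inertia g => (M.ρ g - 1) ^ 3 = 0 ∧ (M.ρ g - 1) ^ 2 ≠ 0 ∧
      finrank K (LinearMap.range (M.ρ g - 1)) = 2
  | .frobenius v F c => 0 < c ∧ ∃ h : ℚ, K3Slopes v (M.ρ F) h c

/-- small representations, locally -/
def LocSmall (M : FRep K Γ) (r : ℕ) : Loc K Γ → Prop
  | .inertia g => (M.ρ g - 1) ^ 2 = 0 ∧ finrank K (LinearMap.range (M.ρ g - 1)) ^ 2 + 2 < r
  | .frobenius v F c => gaps (slopes v (M.ρ F)) c + 2 < r

/-- A representation of orthogonal type: a symmetric form which is invariant up to a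
character, strongly irreducible, of rank `3` or at least `5`, with the local condition. -/
structure ORep (l : Loc K Γ) (M : FRep K Γ) where
  B : M.V →ₗ[K] M.V →ₗ[K] K
  μ : Γ →* Kˣ
  eqv : ∀ g x y, B (M.ρ g x) (M.ρ g y) = (μ g : K) * B x y
  sy : ∀ x y, B x y = B y x
  nd : ∀ x, (∀ y, B x y = 0) → x = 0
  si : SI M.ρ
  dim : finrank K M.V = 3 ∨ 5 ≤ finrank K M.V
  loc : LocRep M l

/-- The representation `M` is small with respect to `l` and the rank `r`. -/
def SmallR (l : Loc K Γ) (r : ℕ) (M : FRep K Γ) : Prop :=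
  LocSmall M r l ∨ (HasForm 1 M ∧ finrank K M.V < r) ∨ (HasForm (-1) M ∧ finrank K M.V + 1 < r)

section

variable {ι : Type} {N : ι → FRep K Γ}

/-- the logarithm of a unipotent operator of type III -/
theorem log_three {T : Type} [AddCommGroup T] [Module K T] [FiniteDimensional K T]
    {U : Module.End K T} (h3 : (U - 1) ^ 3 = 0) :
    lg 3 U * lg 3 U = (U - 1) ^ 2 ∧ LinearMap.range (lg 3 U) = LinearMap.range (U - 1) ∧
      (lg 3 U) ^ 3 = 0 := by
  obtain ⟨ν, hν⟩ : ∃ ν : Module.End K T, ν = U - 1 := ⟨_, rfl⟩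
  rw [← hν] at h3 ⊢
  have h3' : ν * ν * ν = 0 := by
    rw [← h3, pow_succ, pow_two]
  have e : lg 3 U = ν - (2⁻¹ : K) • (ν * ν) := by
    rw [lg_three, ← hν, pow_two]
  have e2 : lg 3 U * lg 3 U = ν * ν := by
    have h4 : ν * (ν * ν) = 0 := by rw [← mul_assoc, h3']
    rw [e, sub_mul, mul_sub, mul_sub, mul_smul_comm, smul_mul_assoc, smul_mul_assoc,
      mul_smul_comm, h4, h3', mul_assoc ν ν (ν * ν), h4]
    simp
  refine ⟨by rw [e2, pow_two], ?_, ?_⟩
  · refine le_antisymm ?_ ?_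
    · rintro _ ⟨x, rfl⟩
      refine ⟨x - (2⁻¹ : K) • ν x, ?_⟩
      rw [e, map_sub, map_smul]
      rfl
    · rintro _ ⟨x, rfl⟩
      refine ⟨x + (2⁻¹ : K) • ν x, ?_⟩
      have h4 : ν (ν (ν x)) = 0 := by
        have h5 := LinearMap.congr_fun h3' x
        exact h5
      rw [e, LinearMap.sub_apply, LinearMap.smul_apply, Module.End.mul_apply, map_add, map_smul,
        map_add, map_smul, h4, smul_zero, add_zero]
      abel
  · rw [pow_succ, pow_two, e2, e, mul_sub, mul_smul_comm, ← mul_assoc, h3']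
    simp

theorem mem_eich {t : ι} (fr : Frm N t) (sy : ∀ x y, fr.B x y = fr.B y x)
    (nd : ∀ x, (∀ y, fr.B x y = 0) → x = 0) {g : Γ} (h : LocRep (N t) (.inertia g))
    {J : ∀ i, (N i).V →ₗ[K] (N i).V} (hJG : J ∈ GG N)
    (hJ : ∀ i, ∀ n : ℕ, ((N i).ρ g - 1) ^ n = 0 → J i = lg n ((N i).ρ g)) : Eich fr J := by
  obtain ⟨hcube, hsq, hrk⟩ := h
  refine ⟨hJG, ?_⟩
  have h1 : J t = lg 3 ((N t).ρ g) := hJ t 3 hcube
  obtain ⟨e2, e3, e4⟩ := log_three hcube
  rw [← h1] at e2 e3 e4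
  obtain ⟨a, ha⟩ := fr.der hJG
  have hsk : ∀ x y, fr.B (J t x) y + fr.B x (J t y) = 0 := skew_of_nil nd ha e4
  refine exists_eich sy nd hsk ?_ ?_ ?_
  · intro x
    have h5 := LinearMap.congr_fun e4 x
    rw [pow_succ, pow_two] at h5
    exact h5
  · by_contra hcon
    push Not at hcon
    apply hsq
    rw [← e2]
    apply LinearMap.ext
    intro x
    exact hcon x
  · rw [e3]
    exact hrk

/-- a member with K3 slopes -/
def ofOrt {t : ι} (o : Ort N t) : Ful N t :=
  ⟨o.toFrm, o.sy, o.nd, o.si, o.dim, o.p, o.q, o.pp, o.qq, o.qp, fun x y => (o.all_mem x y).2⟩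

section

variable {t : ι} (fr : Frm N t) (sy : ∀ x y, fr.B x y = fr.B y x)
  (nd : ∀ x, (∀ y, fr.B x y = 0) → x = 0) (si : SI (N t).ρ)
  (dim : finrank K (N t).V = 3 ∨ 5 ≤ finrank K (N t).V)

include sy nd si dim

theorem loc_ful {l : Loc K Γ} (h : LocRep (N t) l) : ∃ o : Ful N t, o.toFrm = fr := by
  cases l with
  | inertia g =>
    obtain ⟨J, hJG, hJ⟩ := exists_GGlog N g
    exact exists_Ful sy nd si dim (mem_eich fr sy nd h hJG hJ)
  | frobenius v F c =>
    obtain ⟨hc, b, hK⟩ := h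
    obtain ⟨J, hJG, hJ⟩ := exists_GG N (toK v) F
    obtain ⟨o, ho, -, -⟩ := exists_Ort fr sy nd si dim v F hJG hJ hc.ne' hK
    exact ⟨ofOrt o, ho⟩

theorem loc_small {l : Loc K Γ} (h : LocRep (N t) l) {a : ι}
    (ha : LocSmall (N a) (finrank K (N t).V) l) : Good N t a := by
  cases l with
  | inertia g =>
    obtain ⟨J, hJG, hJ⟩ := exists_GGlog N g
    have hE := mem_eich fr sy nd h hJG hJ
    obtain ⟨o, ho⟩ := exists_Ful sy nd si dim hE
    obtain ⟨h1, h1'⟩ := ha
    have h2 : J a = (N a).ρ g - 1 := by rw [hJ a 2 h1, lg_two]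
    refine o.good_mild (J := J) (by rw [ho]; exact hE) ?_ ?_
    · rw [h2, ← pow_two]
      exact h1
    · rw [h2]
      exact h1'
  | frobenius v F c =>
    obtain ⟨hc, b, hK⟩ := h
    obtain ⟨J, hJG, hJ⟩ := exists_GG N (toK v) F
    obtain ⟨o, ho, hoJ, hoc⟩ := exists_Ort fr sy nd si dim v F hJG hJ hc.ne' hK
    exact o.good_of_gaps v F (by rw [hoJ]; exact hJ a) hoc ha

theorem loc_same {l l' : Loc K Γ} (h : LocRep (N t) l) {t' : ι} (fr' : Frm N t')
    (sy' : ∀ x y, fr'.B x y = fr'.B y x)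
    (nd' : ∀ x, (∀ y, fr'.B x y = 0) → x = 0) (si' : SI (N t').ρ)
    (dim' : finrank K (N t').V = 3 ∨ 5 ≤ finrank K (N t').V) (h' : LocRep (N t') l')
    (hll : l.Same l') (hiso : ¬IsoUpTo (N t') (N t)) : Good N t t' := by
  cases l with
  | inertia g =>
    cases l' with
    | inertia g' =>
      obtain rfl : g = g' := hll
      obtain ⟨J, hJG, hJ⟩ := exists_GGlog N g
      have hE := mem_eich fr sy nd h hJG hJ
      have hE' := mem_eich fr' sy' nd' h' hJG hJ
      obtain ⟨o, ho⟩ := exists_Ful sy nd si dim hE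
      obtain ⟨o', ho'⟩ := exists_Ful sy' nd' si' dim' hE'
      exact o.good_common o' (J := J) (by rw [ho]; exact hE) (by rw [ho']; exact hE') hiso
    | frobenius v F c => exact hll.elim
  | frobenius v F c =>
    cases l' with
    | inertia g' => exact hll.elim
    | frobenius v' F' c' =>
      obtain ⟨rfl, rfl⟩ : v = v' ∧ F = F' := hll
      obtain ⟨hc, b, hK⟩ := h
      obtain ⟨hc', b', hK'⟩ := h'
      obtain ⟨J, hJG, hJ⟩ := exists_GG N (toK v) F
      obtain ⟨o, ho, hoJ, hoc⟩ := exists_Ort fr sy nd si dim v F hJG hJ hc.ne' hK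
      obtain ⟨o', ho', hoJ', hoc'⟩ := exists_Ort fr' sy' nd' si' dim' v F hJG hJ hc'.ne' hK'
      by_cases hcc : c = c'
      · exact o.good_of_not_iso o' (by rw [hoJ, hoJ']) (by rw [hoc, hoc', hcc]) hiso
      · refine o.good_of_ne o' (by rw [hoJ, hoJ']) ?_ ?_
        · rw [hoc, hoc']
          exact fun h => hcc (Rat.cast_injective h)
        · rw [hoc, hoc', ← Rat.cast_neg]
          intro h
          have h1 := Rat.cast_injective h
          linarith

end

end

variable {A : Type} [Ring A] [Algebra K A] [FiniteDimensional K A]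

/-- **The main application.** -/
theorem kill_of_data {ι : Type} {m : ℕ} {T : ι → FRep K Γ} {M : Fin m → FRep K Γ}
    {χ : Γ →* Kˣ} {τ : Γ →* (A ≃ₐ[K] A)} {S : Set ι} (hS : S.Finite) (hgen : GenBy T M χ τ S)
    {l : ι → Loc K Γ} (hT : ∀ j, ORep (l j) (T j))
    (hiso : ∀ i j, i ≠ j → ¬IsoUpTo (T i) (T j)) {i : ι} (hi : i ∉ S)
    (h8 : ∀ j, j ≠ i → finrank K (T i).V = 8 → finrank K (T j).V = 8 → (l i).Same (l j))
    (hM : ∀ a, SmallR (l i) (finrank K (T i).V) (M a)) (lam : Γ →* Kˣ)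
    {R : Type} [Fintype R] [DecidableEq R]
    {h : MultilinearMap K (fun _ : R => (T i).V) A} (hh : Eqv (T i).ρ (algRep lam τ).ρ h)
    (x y : (T i).V) : Kill (oo (hT i).B 1 x y) h := by
  classical
  -- the characters of the forms
  have hκ : ∀ a, ∃ κ : Γ →* Kˣ, LocSmall (M a) (finrank K (T i).V) (l i) ∨
      (∃ B : (M a).V →ₗ[K] (M a).V →ₗ[K] K, (∀ x y, B x y = (1 : K) * B y x) ∧
        (∀ x, (∀ y, B x y = 0) → x = 0) ∧
        (∀ g x y, B ((M a).ρ g x) ((M a).ρ g y) = (κ g : K) * B x y) ∧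
        finrank K (M a).V < finrank K (T i).V) ∨
      (∃ B : (M a).V →ₗ[K] (M a).V →ₗ[K] K, (∀ x y, B x y = (-1 : K) * B y x) ∧
        (∀ x, (∀ y, B x y = 0) → x = 0) ∧
        (∀ g x y, B ((M a).ρ g x) ((M a).ρ g y) = (κ g : K) * B x y) ∧
        finrank K (M a).V + 1 < finrank K (T i).V) := by
    intro a
    rcases hM a with h1 | ⟨⟨μ, B, h1, h2, h3⟩, h4⟩ | ⟨⟨μ, B, h1, h2, h3⟩, h4⟩
    · exact ⟨1, Or.inl h1⟩
    · exact ⟨μ, Or.inr (Or.inl ⟨B, h1, h2, h3, h4⟩)⟩
    · exact ⟨μ, Or.inr (Or.inr ⟨B, h1, h2, h3, h4⟩)⟩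
  choose κ hκ using hκ
  let N : Ix ι m → FRep K Γ := fam T M (fun j => (hT j).μ) κ χ lam τ
  -- the members of orthogonal type
  let fr : ∀ j, Frm N (Ix.t j) := fun j => ⟨(hT j).B, fun g => ((hT j).μ g : K), (hT j).eqv,
    Ix.mu j, line_finrank _, fun g x => rfl⟩
  have hfr : ∀ j, ∃ o : Ful N (Ix.t j), o.toFrm = fr j := fun j =>
    loc_ful (N := N) (t := Ix.t j) (fr j) (hT j).sy (hT j).nd (hT j).si (hT j).dim (hT j).loc
  choose o ho using hfr
  have hoB : ∀ j, (o j).B = (hT j).B := fun j => by rw [ho]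
  have hgoodT : ∀ j, j ≠ i → Good N (Ix.t i) (Ix.t j) := by
    intro j hj
    by_cases hi8 : finrank K (T i).V = 8
    · by_cases hj8 : finrank K (T j).V = 8
      · exact loc_same (N := N) (t := Ix.t i) (fr i) (hT i).sy (hT i).nd (hT i).si (hT i).dim
          (hT i).loc (t' := Ix.t j) (fr j) (hT j).sy (hT j).nd (hT j).si (hT j).dim (hT j).loc
          (h8 j hj hi8 hj8) (hiso j i hj)
      · exact (o i).good_symm (o j) ((o j).good_of_not_iso (o i) hj8 (hiso i j hj.symm))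
    · exact (o i).good_of_not_iso (o j) hi8 (hiso j i hj)
  have hgoodM : ∀ a, Good N (Ix.t i) (Ix.pc a) := by
    intro a
    rcases hκ a with h1 | ⟨B, h1, h2, h3, h4⟩ | ⟨B, h1, h2, h3, h4⟩
    · exact loc_small (N := N) (t := Ix.t i) (fr i) (hT i).sy (hT i).nd (hT i).si (hT i).dim
        (hT i).loc (a := Ix.pc a) h1
    · exact (o i).good_of_sym (a := Ix.pc a) ⟨B, fun g => (κ a g : K), h3, Ix.cf a,
        line_finrank _, fun g x => rfl⟩ (fun x y => (h1 x y).trans (one_mul _)) h2 h4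
    · exact (o i).good_of_alt (a := Ix.pc a) ⟨B, fun g => (κ a g : K), h3, Ix.cf a,
        line_finrank _, fun g x => rfl⟩ (fun x y => (h1 x y).trans (neg_one_mul _)) h2 h4
  -- an operator which kills the other members
  obtain ⟨D, hD, hD0, hDt⟩ := (o i).good_finset
    (hS.toFinset.image Ix.t ∪ (univ : Finset (Fin m)).image Ix.pc) (by
      intro a ha
      rcases Finset.mem_union.1 ha with ha | ha
      · obtain ⟨j, hj, rfl⟩ := Finset.mem_image.1 ha
        exact hgoodT j fun h => hi (h ▸ (hS.mem_toFinset.1 hj))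
      · obtain ⟨a, -, rfl⟩ := Finset.mem_image.1 ha
        exact hgoodM a) x y
  have hDG := GG1_le hD
  have hDT : ∀ j ∈ S, D (Ix.t j) = 0 := fun j hj => hD0 _ (Finset.mem_union_left _
    (Finset.mem_image.2 ⟨j, hS.mem_toFinset.2 hj, rfl⟩))
  have hDM : ∀ a, D (Ix.pc a) = 0 := fun a => hD0 _ (Finset.mem_union_right _
    (Finset.mem_image.2 ⟨a, Finset.mem_univ _, rfl⟩))
  have hDl : D Ix.lam = 0 := GG1_line hD (line_finrank _).le
  have hDc : ∀ n, D (Ix.chi n) = 0 := fun n => GG1_line hD (line_finrank _).le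
  -- the derivation of the algebra
  let E : A →ₗ[K] A := D Ix.alg
  have hE : ∀ a b : A, E (a * b) = E a * b + a * E b := by
    intro a b
    have h1 : ∀ (g : Γ) (x y : A), (((1 : Γ →* Kˣ) g : K) • τ g x) *
        (((1 : Γ →* Kˣ) g : K) • τ g y) = ((1 : Γ →* Kˣ) g : K) • τ g (x * y) := by
      intro g x y
      simp
    exact (bil_der (N := N) (a := Ix.alg) (b := Ix.alg) (c := Ix.alg) (LinearMap.mul K A)
      (Δ := ⊤) inferInstance (fun g _ x y => h1 g x y) hDG a b).symm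
  have hE1 : E 1 = 0 := by
    have h1 := hE 1 1
    rw [mul_one, mul_one, one_mul] at h1
    exact left_eq_add.1 h1
  have hE0 : ∀ a : A, E a = 0 := by
    intro a
    have ha : a ∈ Algebra.adjoin K (SemiInv χ τ ∪
      ({x | ∃ j ∈ S, ∃ f : (T j).V →ₗ[K] A, (∀ g y, f ((T j).ρ g y) = τ g (f y)) ∧ ∃ y, f y = x} ∪
       {x | ∃ a, ∃ f : (M a).V →ₗ[K] A, (∀ g y, f ((M a).ρ g y) = τ g (f y)) ∧ ∃ y, f y = x})) := by
      rw [hgen]
      exact Algebra.mem_top
    induction ha using Algebra.adjoin_induction with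
    | mem a ha =>
      rcases ha with ⟨n, Δ, hΔ, h1⟩ | ⟨j, hj, f, hf, z, rfl⟩ | ⟨b, f, hf, z, rfl⟩
      · have h4 : ∀ g ∈ Δ, ∀ z : K, (((χ ^ n) g : K) • z) • a =
            ((1 : Γ →* Kˣ) g : K) • τ g (z • a) := by
          intro g hg z
          rw [map_smul, h1 g hg, MonoidHom.one_apply, Units.val_one, one_smul,
            MonoidHom.pow_apply, Units.val_pow_eq_pow_val, smul_comm z, smul_assoc]
        have h2 := lin_der (N := N) (a := Ix.chi n) (c := Ix.alg)
          (LinearMap.toSpanSingleton K A a) hΔ (fun g hg z => h4 g hg z) hDG (1 : K)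
        rw [hDc] at h2
        have h3 : E ((1 : K) • a) = 0 := by
          refine Eq.trans h2.symm ?_
          exact map_zero _
        rwa [one_smul] at h3
      · have h4 : ∀ (g : Γ) (y : (T j).V), f ((T j).ρ g y) =
            ((1 : Γ →* Kˣ) g : K) • τ g (f y) := by
          intro g y
          rw [hf, MonoidHom.one_apply, Units.val_one, one_smul]
        have h2 := lin_der (N := N) (a := Ix.t j) (c := Ix.alg) f (Δ := ⊤) inferInstance
          (fun g _ y => h4 g y) hDG z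
        rw [hDT j hj] at h2
        exact h2.symm.trans (map_zero f)
      · have h4 : ∀ (g : Γ) (y : (M b).V), f ((M b).ρ g y) =
            ((1 : Γ →* Kˣ) g : K) • τ g (f y) := by
          intro g y
          rw [hf, MonoidHom.one_apply, Units.val_one, one_smul]
        have h2 := lin_der (N := N) (a := Ix.pc b) (c := Ix.alg) f (Δ := ⊤) inferInstance
          (fun g _ y => h4 g y) hDG z
        rw [hDM b] at h2
        exact h2.symm.trans (map_zero f)
    | algebraMap r => rw [Algebra.algebraMap_eq_smul_one, map_smul, hE1, smul_zero]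
    | add a b _ _ ha hb => rw [map_add, ha, hb, add_zero]
    | mul a b _ _ ha hb => rw [hE, ha, hb, zero_mul, mul_zero, add_zero]
  -- the target
  have htgt : ∀ a : A, D Ix.tgt a = 0 := by
    intro a
    have h4 : ∀ (g : Γ) (x : K) (y : A), ((lam g : K) • x) • (((1 : Γ →* Kˣ) g : K) • τ g y) =
        (lam g : K) • τ g (x • y) := by
      intro g x y
      rw [map_smul, MonoidHom.one_apply, Units.val_one, one_smul, smul_assoc]
    have h1 := bil_der (N := N) (a := Ix.lam) (b := Ix.alg) (c := Ix.tgt)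
      (LinearMap.lsmul K A) (Δ := ⊤) inferInstance (fun g _ x y => h4 g x y) hDG (1 : K) a
    rw [hDl] at h1
    have h2 : D Ix.tgt ((1 : K) • a) = 0 := by
      refine Eq.trans h1.symm ?_
      change (0 : K) • a + (1 : K) • E a = 0
      rw [hE0, smul_zero, zero_smul, add_zero]
    rwa [one_smul] at h2
  intro w
  obtain ⟨Δ, hΔ, hΔh⟩ := hh
  have h1 := hDG R (fun _ => Ix.t i) Ix.tgt h ⟨Δ, hΔ, hΔh⟩ w
  have h2 : D Ix.tgt (h w) = 0 := htgt (h w)
  have h3 : D (Ix.t i) = oo (hT i).B 1 x y := by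
    rw [hDt, hoB]
    rfl
  refine Eq.trans (Finset.sum_congr rfl fun j _ => ?_) (h1.trans h2)
  exact congrArg (fun Y : Module.End K (T i).V => h (update w j (Y (w j)))) h3.symm

end Pool.Agent.Q71.TM
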