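import Pool.Agent.Q71.TM.Pub0

/-!
# Families of varieties of orthogonal type with maximal degenerations or K3 slopes: definitions
-/

set_option autoImplicit false

open CategoryTheory AlgebraicGeometry

universe u

namespace Pool.Agent.Q71.TM.P

open Pool.Agent.TH125.Gal Pool.Agent.Y127.G

section Alg

variable {K : Type} [Field K] {A : Type} [Ring A] [Algebra K A]
  {A' : Type} [Ring A'] [Algebra K A'] {Γ : Type} [Group Γ]

open Classical in
/-- The determinant of `f` on `T`, if `T` is stable under `f`. -/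
noncomputable def detOn (T : Submodule K A) (f : A →ₗ[K] A) : K :=
  if h : ∀ x ∈ T, f x ∈ T then LinearMap.det (f.restrict h) else 1

/-- The discriminant character: the determinant of `g` on `T`, divided by the power of
`χ g ^ (d / 2)` with the exponent `rank T`. -/
noncomputable def discrAct (D : Tw K Γ) (d : ℕ) (T : Submodule K A) (ρ : Γ →* (A ≃ₐ[K] A))
    (g : Γ) : K :=
  detOn T (ρ g).toLinearMap * (((D.χ g : K) ^ (d / 2)) ^ Module.finrank K T)⁻¹

/-- All elements `a` of the sets `C j` satisfy `g a = χ g ^ j • a` for `g ∈ Δ`. -/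
def DefinedAct (D : Tw K Γ) (Δ : Subgroup Γ) (C : ℕ → Set A) (ρ : Γ →* (A ≃ₐ[K] A)) : Prop :=
  ∀ j, ∀ a ∈ C j, ∀ g ∈ Δ, ρ g a = (D.χ g : K) ^ j • a

/-- No product of the functions `f i` for different `i ∈ L` is trivial on `Δ`. -/
def IndepOn (Δ : Subgroup Γ) {ι : Type} (f : ι → Γ → K) (L : Set ι) : Prop :=
  ∀ I : Finset ι, I.Nonempty → (I : Set ι) ⊆ L → ∃ g ∈ Δ, ∏ i ∈ I, f i g ≠ 1

/-- All elements `c` of `gr (2 * j)` such that `ρ g c = χ g ^ j • c` for all `g ∈ Δ` are linear
combinations of elements of `C j` with the same property, for all `j`. -/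
def TateOverAct (D : Tw K Γ) (Δ : Subgroup Γ) (gr : ℕ → Submodule K A) (C : ℕ → Set A)
    (ρ : Γ →* (A ≃ₐ[K] A)) : Prop :=
  ∀ j, ∀ c ∈ gr (2 * j), (∀ g ∈ Δ, ρ g c = (D.χ g : K) ^ j • c) →
    c ∈ Submodule.span K {a | a ∈ C j ∧ ∀ g ∈ Δ, ρ g a = (D.χ g : K) ^ j • a}

end Alg

open Pool.Agent.H914 Pool.Agent.H914.VarClass Pool.Agent.H914.VarClass.Obj
  Pool.Agent.H914.WeilCohomology

variable {k : Type u} [Field k] {𝒱 : VarClass k} {ops : CycleOps 𝒱}
  {W : WeilCohomology.{u, 0} ops} {Γ : Type} [Group Γ]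

/-- All algebraic classes on `Y` are defined over the field with Galois group `Δ`. -/
def AlgDefined (D : Tw W.K Γ) (Δ : Subgroup Γ) (Y : GVar W Γ) : Prop :=
  DefinedAct D Δ (algClasses W Y.X) Y.act

/-- The discriminant character of `X`. -/
noncomputable def discr (D : Tw W.K Γ) (X : GVar W Γ) : Γ → W.K :=
  discrAct D X.X.dim (transcendental W X.X) X.act

/-- The Tate conjecture for `Y`: for all `j`, every class in `H^(2j)(Y)` which is multiplied by
`χ g ^ j` by all `g` in a subgroup of finite index is a linear combination of classes of algebraic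
cycles of codimension `j`. -/
def Tate (D : Tw W.K Γ) (Y : GVar W Γ) : Prop :=
  TateAct D.χ (W.gr Y.X) (algClasses W Y.X) Y.act

/-- Let `Δ` be the Galois group of the field `F`. This is part (b) of the Tate conjecture for `Y`
over `F`: for all `j`, every class in `H^(2j)(Y)` which is multiplied by `χ g ^ j` by all `g ∈ Δ` is
a linear combination of classes of algebraic cycles of codimension `j` with the same property. -/
def TateOver (D : Tw W.K Γ) (Δ : Subgroup Γ) (Y : GVar W Γ) : Prop :=
  TateOverAct D Δ (W.gr Y.X) (algClasses W Y.X) Y.act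

/-- The product of `n + 1` copies of `X` and of `Z`. -/
noncomputable def powProd (ops : CycleOps 𝒱) (X : 𝒱.Obj) (n : ℕ) (Z : 𝒱.Obj) : 𝒱.Obj :=
  (power ops X n).prod Z

/-- The projections to the copies of `X`. -/
noncomputable def powFst (ops : CycleOps 𝒱) (X : 𝒱.Obj) (n : ℕ) (Z : 𝒱.Obj) (p : Fin (n + 1)) :
    powProd ops X n Z ⟶ X :=
  fst (power ops X n) Z ≫ powerPrj ops X n p

/-- The projection to `Z`. -/
noncomputable def powSnd (ops : CycleOps 𝒱) (X : 𝒱.Obj) (n : ℕ) (Z : 𝒱.Obj) :
    powProd ops X n Z ⟶ Z :=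
  snd (power ops X n) Z

/-- `Y` is the product of `n + 1` copies of `X` and of `Z`, with an action on the cohomology which
is compatible with the projections to the factors. -/
inductive IsPowProd (X : GVar W Γ) (n : ℕ) (Z : GVar W Γ) : GVar W Γ → Prop
  | mk (υ : Acts W Γ (powProd ops X.X n Z.X)) :
      (∀ p, Compat (powFst ops X.X n Z.X p) X.act υ) → Compat (powSnd ops X.X n Z.X) Z.act υ →
      IsPowProd X n Z ⟨powProd ops X.X n Z.X, υ⟩

/-- The varieties `Y = X_1^(n_1) × (X_2^(n_2) × ( ⋯ × Z))`, where the `X_i` are pairwise different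
members of the family `X` and `n_i ≥ 1`. Here `S` is the set of the indices which are used, and `L`
is a set of indices which contains all `i` such that `n_i` is not less than the rank `r i`. -/
inductive Tower {ι : Type} (r : ι → ℕ) (X : ι → GVar W Γ) (Z : GVar W Γ) :
    Set ι → Set ι → GVar W Γ → Prop
  | base : Tower r X Z ∅ ∅ Z
  | small {S L Y Y'} (i : ι) (n : ℕ) : Tower r X Z S L Y → i ∉ S →
      n + 1 < r i → IsPowProd (X i) n Y Y' → Tower r X Z (insert i S) L Y'
  | large {S L Y Y'} (i : ι) (n : ℕ) : Tower r X Z S L Y → i ∉ S → IsPowProd (X i) n Y Y' →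
      Tower r X Z (insert i S) (insert i L) Y'

end Pool.Agent.Q71.TM.P
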