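import Pool.Agent.Q71.TM.Twr
import Pool.Agent.Q71.TM.Pub

/-!
# The two forms of the definitions
-/

set_option autoImplicit false

open CategoryTheory AlgebraicGeometry Finset Function

universe u

namespace Pool.Agent.Q71.TM.P

open Pool.Agent.TH125.Gal Pool.Agent.Y127 Pool.Agent.Y127.G

/-- the two forms of the local information -/
def toLoc {K : Type} [Field K] {Γ : Type} : P.Loc K Γ → TM.Loc K Γ
  | .inertia g => .inertia g
  | .frobenius v F c => .frobenius v F c

theorem same_of {K : Type} [Field K] {Γ : Type} {l l' : P.Loc K Γ} (h : l.Same l') :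
    (toLoc l).Same (toLoc l') := by
  rcases h with ⟨g, rfl, rfl⟩ | ⟨v, F, c, c', rfl, rfl⟩
  · exact rfl
  · exact ⟨rfl, rfl⟩

section Alg

variable {K : Type} [Field K] {A : Type} [Ring A] [Algebra K A] [FiniteDimensional K A]
  {Γ : Type} [Group Γ] {ρ : Γ →* (A ≃ₐ[K] A)}

theorem typeOn {T : Submodule K A} {l : P.Loc K Γ} (h : P.TypeOn ρ T l) :
    TM.TypeOn ρ T (toLoc l) := by
  cases l with
  | inertia g => exact h
  | frobenius v F c =>
    obtain ⟨hc, b, hU, h1⟩ := h
    exact ⟨hc, b, hU, h1⟩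

theorem smallFor {U : Submodule K A} {l : P.Loc K Γ} {r : ℕ} (h : P.SmallFor ρ U l r) :
    TM.SmallFor ρ U (toLoc l) r := by
  rcases h with h | h | h
  · left
    cases l with
    | inertia g => exact h
    | frobenius v F c =>
      obtain ⟨s, ⟨hU, rfl⟩, h2⟩ := h
      exact ⟨hU, h2⟩
  · exact Or.inr (Or.inl h)
  · exact Or.inr (Or.inr h)

theorem genSmallFor {ι : Type} {l : ι → P.Loc K Γ} {r : ι → ℕ} (h : P.GenSmallFor l r ρ) :
    TM.GenSmallFor (fun i => toLoc (l i)) r ρ := by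
  obtain ⟨m, U, h1, h2, h3⟩ := h
  exact ⟨m, U, fun a i => smallFor (h1 a i), h2, h3⟩

end Alg

open Pool.Agent.H914 Pool.Agent.H914.VarClass Pool.Agent.H914.VarClass.Obj
  Pool.Agent.H914.WeilCohomology

variable {k : Type u} [Field k] {𝒱 : VarClass k} {ops : CycleOps 𝒱}
  {W : WeilCohomology.{u, 0} ops} {Γ : Type} [Group Γ] {D : Tw W.K Γ}
  {ι : Type} {X : ι → GVar W Γ} {Z : GVar W Γ} {S L : Set ι} {Y : GVar W Γ}
  {l : ι → P.Loc W.K Γ} {r : ι → ℕ}

theorem orthType {l : P.Loc W.K Γ} {r : ℕ} {X : GVar W Γ} (h : P.OrthType D l r X) :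
    TM.OrthType D.χ (toLoc l) X where
  galois := h.galois
  homEqNum := h.homEqNum
  even := h.even
  middle := h.act.1
  rank := by
    have h1 : transRank W X.X = r := h.act.2.1
    rw [h1]
    exact h.act.2.2.1
  irreducible := h.act.2.2.2.1
  type := typeOn h.act.2.2.2.2

theorem rank_eq {l : P.Loc W.K Γ} {r : ℕ} {X : GVar W Γ} (h : P.OrthType D l r X) :
    transRank W X.X = r := h.act.2.1

theorem orthFamily (h : P.OrthFamily D l r X Z) :
    TM.OrthFamily D.χ (fun i => toLoc (l i)) X Z where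
  orth i := orthType (h.orth i)
  notIso i j hij := h.notIso i j hij
  eight i j hij hi hj := by
    rw [rank_eq (h.orth i)] at hi
    rw [rank_eq (h.orth j)] at hj
    exact same_of (h.eight i j hij hi hj)
  base := by
    have h1 : (fun i => transRank W (X i).X) = r := funext fun i => rank_eq (h.orth i)
    rw [h1]
    exact genSmallFor h.base

theorem isPowProd {X Z : GVar W Γ} {n : ℕ} {Y : GVar W Γ} (h : P.IsPowProd X n Z Y) :
    Pool.Agent.TH125.Gal.IsPowProd X n Z Y := by
  obtain ⟨υ, h1, h2⟩ := h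
  exact Pool.Agent.TH125.Gal.IsPowProd.mk υ h1 h2

theorem tower (hX : P.OrthFamily D l r X Z) (h : P.Tower r X Z S L Y) : LTower X Z S L Y := by
  induction h with
  | base => exact LTower.base
  | @small S L Y Y' i n h hi hn hP ih =>
    exact LTower.small i n ih hi (fun _ => by rw [rank_eq (hX.orth i)]; exact hn) (isPowProd hP)
  | @large S L Y Y' i n h hi hP ih => exact LTower.large i n ih hi (isPowProd hP)

/-- **The theorem.** -/
theorem final [IsAlgClosed W.K] (hX : P.OrthFamily D l r X Z) (hY : P.Tower r X Z S L Y)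
    (hG : P.GaloisType D Y) : (P.Tate D Y → P.Tate D Z) ∧
    (P.Tate D Z → ∀ Δ' : Subgroup Γ, Δ'.FiniteIndex →
      (L = ∅ ∨ ∃ Δ ≤ Δ', Δ.FiniteIndex ∧ (∀ i ∈ S, P.AlgDefined D Δ (X i)) ∧
        P.AlgDefined D Δ Z ∧ P.IndepOn Δ (fun i => P.discr D (X i)) L) → P.TateOver D Δ' Y) := by
  have hX' := orthFamily hX
  have hY' := tower hX hY
  refine ⟨fun h => hX'.conv' hY' h, fun hZ Δ' hΔ' hL => ?_⟩
  have key : Y127.TateOver D.χ Δ' Y := hX'.over hY' hG hZ Δ' hΔ' hL
  exact key

end Pool.Agent.Q71.TM.P
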