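import Pool.Agent.Y127.C.Eich
import Pool.Agent.Y127.C.Aut2

/-!
# Unipotent operators with `(U - 1) ^ 3 = 0`, `(U - 1) ^ 2 ≠ 0` and `rank (U - 1) = 2`
-/

set_option linter.unusedSectionVars false

namespace Pool.Agent.Q71.TM

open Module Finset Function Pool.Agent.TH125.Gal Pool.Agent.Y127.G Pool.Agent.Y127.C

section lin

variable {K : Type} [Field K] [CharZero K] {T : Type} [AddCommGroup T] [Module K T]
  [FiniteDimensional K T] {B : T →ₗ[K] T →ₗ[K] K}

/-- A skew operator `J` with `J ^ 3 = 0`, `J ^ 2 ≠ 0` and of rank two is an Eichler operator. -/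
theorem exists_eich (hsy : ∀ x y, B x y = B y x) (hnd : ∀ x, (∀ y, B x y = 0) → x = 0)
    {J : Module.End K T} (hJ : ∀ x y, B (J x) y + B x (J y) = 0) (h3 : ∀ x, J (J (J x)) = 0)
    (h2 : ∃ x, J (J x) ≠ 0) (hr : finrank K (LinearMap.range J) = 2) :
    ∃ u w, u ≠ 0 ∧ B u u = 0 ∧ B u w = 0 ∧ B w w ≠ 0 ∧ J = oo B 1 u w := by
  obtain ⟨x, hx⟩ := h2
  set w := J x with hw
  set u := J w with hu
  have hJu : J u = 0 := h3 x
  have hJw : J w = u := rfl
  -- the range
  have hli : LinearIndependent K ![u, w] := by
    rw [LinearIndependent.pair_iff]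
    intro s t hst
    have h4 := congrArg J hst
    rw [map_add, map_smul, map_smul, hJu, hJw, smul_zero, zero_add, map_zero] at h4
    have ht : t = 0 := (smul_eq_zero.1 h4).resolve_right hx
    rw [ht, zero_smul, add_zero] at hst
    exact ⟨(smul_eq_zero.1 hst).resolve_right hx, ht⟩
  have hspan : Submodule.span K (Set.range ![u, w]) = LinearMap.range J := by
    refine Submodule.eq_of_le_of_finrank_eq ?_ ?_
    · rw [Submodule.span_le]
      rintro _ ⟨i, rfl⟩
      fin_cases i
      · exact ⟨w, rfl⟩
      · exact ⟨x, rfl⟩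
    · rw [finrank_span_eq_card hli, hr, Fintype.card_fin]
  have hco : ∀ y, ∃ α β : K, J y = α • u + β • w := by
    intro y
    have h4 : J y ∈ Submodule.span K (Set.range ![u, w]) := by
      rw [hspan]
      exact ⟨y, rfl⟩
    rw [Matrix.range_cons, Matrix.range_cons, Matrix.range_empty, Set.union_empty,
      Set.singleton_union] at h4
    obtain ⟨α, β, h5⟩ := Submodule.mem_span_pair.1 h4
    exact ⟨α, β, h5.symm⟩
  -- the form
  have huu : B u u = 0 := by
    have h4 := hJ w u
    rw [hJu, map_zero, add_zero] at h4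
    exact h4
  have huw : B u w = 0 := by
    have h4 := hJ w w
    rw [hJw, hsy w u] at h4
    have h5 : (2 : K) * B u w = 0 := by linear_combination h4
    exact (mul_eq_zero.1 h5).resolve_left two_ne_zero
  have hux : B u x = -B w w := by
    have h4 := hJ w x
    rw [hJw] at h4
    have h5 : B w (J x) = B w w := rfl
    rw [h5] at h4
    linear_combination h4
  have hwx : B w x = 0 := by
    have h4 := hJ x x
    have h5 : B x (J x) = B w x := by rw [hsy]
    have h6 : B (J x) x = B w x := rfl
    rw [h5, h6] at h4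
    have h7 : (2 : K) * B w x = 0 := by linear_combination h4
    exact (mul_eq_zero.1 h7).resolve_left two_ne_zero
  have hc : B w w ≠ 0 := by
    intro hc
    apply hx
    refine hnd u fun y => ?_
    have h4 : B u y = B x (J (J y)) := by
      have e1 := hJ w y
      have e2 := hJ x (J y)
      rw [hJw] at e1
      have e3 : B (J x) (J y) = B w (J y) := rfl
      rw [e3] at e2
      linear_combination e1 - e2
    obtain ⟨α, β, h5⟩ := hco y
    rw [h4, h5, map_add, map_smul, map_smul, hJu, hJw, smul_zero, zero_add, map_smul,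
      smul_eq_mul, hsy x u, hux, hc, neg_zero, mul_zero]
  refine ⟨(B w w)⁻¹ • u, w, smul_ne_zero (inv_ne_zero hc) hx, ?_, ?_, hc, ?_⟩
  · rw [map_smul, map_smul, LinearMap.smul_apply, huu, smul_zero, smul_zero]
  · rw [map_smul, LinearMap.smul_apply, huw, smul_zero]
  · apply LinearMap.ext
    intro y
    obtain ⟨α, β, h5⟩ := hco y
    have hβ : β * B w w = -B u y := by
      have h4 := hJ y w
      rw [h5, hJw, map_add, map_smul, map_smul, LinearMap.add_apply, LinearMap.smul_apply,
        LinearMap.smul_apply, huw, smul_zero, zero_add, smul_eq_mul, hsy y u] at h4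
      linear_combination h4
    have hα : α * B w w = B w y := by
      have h4 := hJ y x
      have h6 : B y (J x) = B w y := by rw [hsy]
      rw [h6, h5, map_add, map_smul, map_smul, LinearMap.add_apply, LinearMap.smul_apply,
        LinearMap.smul_apply, hux, hwx, smul_zero, add_zero, smul_eq_mul] at h4
      linear_combination -h4
    have hα' : α = B w y * (B w w)⁻¹ := by
      rw [← hα, mul_assoc, mul_inv_cancel₀ hc, mul_one]
    have hβ' : β = -((B w w)⁻¹ * B u y) := by
      rw [← mul_neg, ← hβ, mul_comm, mul_assoc, mul_inv_cancel₀ hc, mul_one]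
    rw [oo_one_apply, h5, hα', hβ', map_smul, LinearMap.smul_apply, smul_eq_mul, smul_smul,
      neg_smul, sub_eq_add_neg]

/-- a nilpotent operator which multiplies a nondegenerate form is skew -/
theorem skew_of_nil (hnd : ∀ x, (∀ y, B x y = 0) → x = 0) {J : Module.End K T} {a : K}
    (hJ : ∀ x y, B (J x) y + B x (J y) = a * B x y) {n : ℕ} (hn : J ^ n = 0) (x y : T) :
    B (J x) y + B x (J y) = 0 := by
  rw [hJ]
  by_cases ha : a = 0
  · rw [ha, zero_mul]
  have h0 : ∀ k, ∀ z, J z = 0 → ∀ y, a ^ k * B z y = B z ((J ^ k) y) := by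
    intro k z hz
    induction k with
    | zero => intro y; rw [pow_zero, pow_zero, one_mul, Module.End.one_apply]
    | succ k ih =>
      intro y
      have h1 := hJ z ((J ^ k) y)
      rw [hz, map_zero, LinearMap.zero_apply, zero_add] at h1
      rw [pow_succ' J, Module.End.mul_apply, h1, ← ih y]
      ring
  have hker : ∀ z, J z = 0 → z = 0 := by
    intro z hz
    refine hnd z fun y => ?_
    have h1 := h0 n z hz y
    rw [hn, LinearMap.zero_apply, map_zero] at h1
    exact (mul_eq_zero.1 h1).resolve_left (pow_ne_zero n ha)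
  have hinj : ∀ k, ∀ z, (J ^ k) z = 0 → z = 0 := by
    intro k
    induction k with
    | zero => intro z hz; rwa [pow_zero, Module.End.one_apply] at hz
    | succ k ih =>
      intro z hz
      rw [pow_succ, Module.End.mul_apply] at hz
      exact hker z (ih _ hz)
  have hx : x = 0 := hinj n x (by rw [hn, LinearMap.zero_apply])
  rw [hx, map_zero, LinearMap.zero_apply, mul_zero]

end lin

end Pool.Agent.Q71.TM
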