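import Pool.Agent.Q71.TM.App
import Pool.Agent.Y127.G.Fin

/-!
# Towers
-/

open CategoryTheory AlgebraicGeometry Finset Function

set_option linter.unusedSectionVars false

universe u

namespace Pool.Agent.Q71.TM

open Pool.Agent.H914 Pool.Agent.H914.VarClass Pool.Agent.H914.VarClass.Obj
  Pool.Agent.H914.WeilCohomology Pool.Agent.H281R3.HT Pool.Agent.W552 Pool.Agent.TH125.Gal
  Pool.Agent.Y127 Pool.Agent.Y127.G

section restrict

variable {K : Type} [Field K] {A : Type} [Ring A] [Algebra K A] [FiniteDimensional K A]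
  {Γ : Type} [Group Γ] {ρ : Γ →* (A ≃ₐ[K] A)} {T : Submodule K A} {ρT : Γ →* (T →ₗ[K] T)}
  (hρ : ∀ g x, (ρT g x : A) = ρ g x)

include hρ

theorem nil_coe (g : Γ) (x : T) : ((ρT g - 1 : Module.End K T) x : A) = nil ρ g x := by
  rw [LinearMap.sub_apply, Module.End.one_apply, Submodule.coe_sub, hρ, nil, LinearMap.sub_apply]
  rfl

theorem range_nil (g : Γ) :
    Module.finrank K (LinearMap.range (ρT g - 1 : Module.End K T)) =
      Module.finrank K (T.map (nil ρ g)) := by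
  have h1 : (LinearMap.range (ρT g - 1 : Module.End K T)).map T.subtype = T.map (nil ρ g) := by
    ext y
    constructor
    · rintro ⟨_, ⟨x, rfl⟩, rfl⟩
      exact ⟨x, x.2, (nil_coe hρ g x).symm⟩
    · rintro ⟨x, hx, rfl⟩
      exact ⟨(ρT g - 1 : Module.End K T) ⟨x, hx⟩, ⟨⟨x, hx⟩, rfl⟩, nil_coe hρ g ⟨x, hx⟩⟩
  rw [← h1]
  exact (LinearEquiv.finrank_eq (Submodule.equivMapOfInjective T.subtype
    T.injective_subtype _))

theorem restrict_eq (F : Γ) (hT : ∀ x ∈ T, (ρ F).toLinearMap x ∈ T) :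
    (ρ F).toLinearMap.restrict hT = ρT F := by
  apply LinearMap.ext
  intro x
  apply Subtype.ext
  rw [hρ]
  rfl

/-- the type condition for representations -/
theorem locRep_of {l : Loc K Γ} (h : TypeOn ρ T l) : LocRep (⟨T, ρT⟩ : FRep K Γ) l := by
  cases l with
  | inertia g =>
    obtain ⟨h1, ⟨x, hx, h2⟩, h3⟩ := h
    refine ⟨?_, ?_, ?_⟩
    · apply LinearMap.ext
      intro x
      apply Subtype.ext
      change (((ρT g - 1 : Module.End K T) ^ 3) x : A) = 0
      rw [pow_succ, pow_two, Module.End.mul_apply, Module.End.mul_apply, nil_coe hρ, nil_coe hρ,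
        nil_coe hρ]
      exact h1 x x.2
    · intro h4
      apply h2
      have h5 := LinearMap.congr_fun h4 (⟨x, hx⟩ : T)
      have h6 : (((ρT g - 1 : Module.End K T) ^ 2) (⟨x, hx⟩ : T) : A) = 0 :=
        congrArg Subtype.val h5
      rw [pow_two, Module.End.mul_apply, nil_coe hρ, nil_coe hρ] at h6
      exact h6
    · exact (range_nil hρ g).trans h3
  | frobenius v F c =>
    obtain ⟨hc, b, hT, h1⟩ := h
    refine ⟨hc, b, ?_⟩
    rw [restrict_eq hρ F hT] at h1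
    exact h1

theorem locSmall_of {r : ℕ} {l : Loc K Γ} (h : LocSmallOn ρ T r l) :
    LocSmall (⟨T, ρT⟩ : FRep K Γ) r l := by
  cases l with
  | inertia g =>
    obtain ⟨h1, h3⟩ := h
    refine ⟨?_, ?_⟩
    · apply LinearMap.ext
      intro x
      apply Subtype.ext
      change (((ρT g - 1 : Module.End K T) ^ 2) x : A) = 0
      rw [pow_two, Module.End.mul_apply, nil_coe hρ, nil_coe hρ]
      exact h1 x x.2
    · have h4 := range_nil hρ g
      change Module.finrank K (LinearMap.range (ρT g - 1 : Module.End K T)) ^ 2 + 2 < r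
      rw [h4]
      exact h3
  | frobenius v F c =>
    obtain ⟨hT, h1⟩ := h
    rw [restrict_eq hρ F hT] at h1
    exact h1

end restrict

variable {k : Type u} [Field k] {𝒱 : VarClass k} {ops : CycleOps 𝒱}
  {W : WeilCohomology.{u, 0} ops} {Γ : Type} [Group Γ] {χ : Γ →* W.Kˣ}

/-- varieties of orthogonal type give representations of orthogonal type -/
noncomputable def oRep {X : GVar W Γ} {l : Loc W.K Γ} (hX : OrthType χ l X) :
    ORep l (trRep hX.galois) where
  B := rform W X.X (transcendental W X.X)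
  μ := χ ^ X.X.dim
  eqv := fun g x y => tr_eqv hX.galois g x y
  sy := fun x y => tr_sy hX.middle hX.even x y
  nd := trans_nondeg hX.homEqNum
  si := SI_rhoT (P := (⟨X.X, 0⟩ : Polarized 𝒱)) (isGalois hX.galois) hX.irreducible
  dim := hX.rank
  loc := locRep_of (ρT := rhoT (isGalois hX.galois)) (fun g x => rfl) hX.type

theorem smallR_subRep {A : Type} [Ring A] [Algebra W.K A] [FiniteDimensional W.K A]
    {ρ : Γ →* (A ≃ₐ[W.K] A)} {U : Submodule W.K A} (hU : ∀ g, ∀ x ∈ U, ρ g x ∈ U) {l : Loc W.K Γ}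
    {r : ℕ} (h : SmallFor ρ U l r) : SmallR l r (subRep ρ U hU) := by
  have key : ∀ s : W.K, FormOn ρ U s → HasForm s (subRep ρ U hU) := by
    rintro s ⟨μ, B, h3, h4, h5⟩
    refine ⟨μ, B.domRestrict₁₂ U U, fun (x y : U) => h3 x x.2 y y.2, fun (x : U) hx => ?_,
      fun g (x y : U) => h5 g x x.2 y y.2⟩
    exact Subtype.ext (h4 x x.2 fun y hy => hx ⟨y, hy⟩)
  rcases h with h1 | ⟨h1, h2⟩ | ⟨h1, h2⟩
  · exact Or.inl (locSmall_of (ρT := (subRep ρ U hU).ρ) (fun g x => rfl) h1)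
  · exact Or.inr (Or.inl ⟨key _ h1, h2⟩)
  · exact Or.inr (Or.inr ⟨key _ h1, h2⟩)

variable {ι : Type} {X : ι → GVar W Γ} {Z : GVar W Γ} {S L : Set ι} {Y : GVar W Γ}
  {l : ι → Loc W.K Γ}

/-- the base in the form used in the proofs -/
theorem OrthFamily.baseRep (hX : OrthFamily χ l X Z) :
    ∃ (m : ℕ) (M : Fin m → FRep W.K Γ) (f : ∀ a, (M a).V →ₗ[W.K] W.H Z.X),
      (∀ a i, SmallR (l i) (transRank W (X i).X) (M a)) ∧
      (∀ a g x, f a ((M a).ρ g x) = Z.act g (f a x)) ∧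
      Algebra.adjoin W.K (⋃ a, Set.range (f a)) = ⊤ := by
  obtain ⟨m, U, h1, h2, h3⟩ := hX.base
  refine ⟨m, fun a => subRep Z.act (U a) (h2 a), fun a => (U a).subtype,
    fun a i => smallR_subRep (h2 a) (h1 a i), fun a g x => rfl, ?_⟩
  rw [← h3]
  congr 1
  refine Set.iUnion_congr fun a => ?_
  change Set.range ((U a).subtype) = _
  rw [Submodule.coe_subtype, Subtype.range_coe_subtype]
  rfl

theorem OrthFamily.sb (hX : OrthFamily χ l X Z) (i : ι) :
    ∃ (s : SB W (X i).X) (o : Fin s.NT) (R : Matrix (Fin s.NT) (Fin s.NT) W.K),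
      (∀ q, q ≠ o → gram (P := (⟨(X i).X, 0⟩ : Polarized 𝒱)) s o q = 0) ∧
        gram (P := (⟨(X i).X, 0⟩ : Polarized 𝒱)) s * R = 1 := by
  refine exists_adapted_SB (P := (⟨(X i).X, 0⟩ : Polarized 𝒱)) (hX.orth i).homEqNum
    (hX.orth i).middle (hX.orth i).even ?_
  have h1 := (hX.orth i).rank
  change 0 < transRank W (X i).X
  omega

/-- the discriminant character of a member of the family -/
noncomputable def OrthFamily.ds (hX : OrthFamily χ l X Z) (i : ι) (g : Γ) : W.K :=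
  dsc (P := (⟨(X i).X, 0⟩ : Polarized 𝒱)) χ (isGalois (hX.orth i).galois) g

theorem OrthFamily.pot (hX : OrthFamily χ l X Z) (i : ι) : Pot (hX.ds i) := by
  obtain ⟨s, o, R, -, hR⟩ := hX.sb i
  exact dsc_pot (P := (⟨(X i).X, 0⟩ : Polarized 𝒱)) (isGalois (hX.orth i).galois)
    (hX.orth i).even hR

/-- the discriminant characters of the two forms of the definition agree -/
theorem disc_eq {X : GVar W Γ} (hG : GaloisType χ X) (g : Γ) :
    discriminant χ X g = dsc (P := (⟨X.X, 0⟩ : Polarized 𝒱)) χ (isGalois hG) g :=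
  discr_eq (D := (⟨χ, 0, 1⟩ : Frob W.K Γ)) hG g

/-- from the product to the base -/
theorem OrthFamily.conv (hX : OrthFamily χ l X Z) (hY : LTower X Z S L Y) {Δ : Subgroup Γ}
    (hT : TC W χ Δ Y.X Y.act) : TC W χ Δ Z.X Z.act := by
  have hne : ∀ i, (1 : W.H (X i).X) ≠ 0 := by
    intro i h3
    have h1 := (hX.orth i).rank
    have h4 : Subsingleton (transcendental W (X i).X) := by
      refine ⟨fun a b => Subtype.ext ?_⟩
      rw [← one_mul (a : W.H (X i).X), ← one_mul (b : W.H (X i).X), h3, zero_mul, zero_mul]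
    have h5 : transRank W (X i).X = 0 := Module.finrank_zero_of_subsingleton
    omega
  induction hY with
  | base => exact hT
  | @small S L Y Y' i n _ hi hn hP ih =>
    obtain ⟨υ, h1, h2⟩ := hP
    exact ih (conv_exact (P := ⟨(X i).X, 0⟩) (hX.orth i).homEqNum (hne i) (isPowAct h1 h2) hT)
  | @large S L Y Y' i n _ hi hP ih =>
    obtain ⟨υ, h1, h2⟩ := hP
    exact ih (conv_exact (P := ⟨(X i).X, 0⟩) (hX.orth i).homEqNum (hne i) (isPowAct h1 h2) hT)

variable [IsAlgClosed W.K]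

/-- **The Lie algebra kills the coordinates.** -/
theorem OrthFamily.inv_step (hX : OrthFamily χ l X Z) (hY : LTower X Z S L Y) {i : ι}
    (hi : i ∉ S) {n : ℕ}
    {υ : Γ →* (W.H ((power ops (X i).X n).prod Y.X) ≃ₐ[W.K] W.H ((power ops (X i).X n).prod Y.X))}
    (hP : IsPowAct W (⟨(X i).X, 0⟩ : Polarized 𝒱) n Y.X (X i).act Y.act υ)
    {s : SB W (X i).X}
    {b : Module.Basis (Fin (n + 1) → Fin s.NC ⊕ Fin s.NT) W.K
      (W.H (nest ops n fun _ => (⟨(X i).X, 0⟩ : Polarized 𝒱)).X)}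
    (hb : ∀ r, b r = mono (prj ops n fun _ => (⟨(X i).X, 0⟩ : Polarized 𝒱)) fun p => s.e (r p))
    {z : W.H ((power ops (X i).X n).prod Y.X)} {j : ℕ} {Δ : Subgroup Γ} (hΔ : Δ.FiniteIndex)
    (hz : ∀ g ∈ Δ, υ g z = (χ g : W.K) ^ j • z) (c₀ : Fin (n + 1) → Option (Fin s.NC)) :
    TH125.Nod.Inv (fun _ : Fin s.NT => ()) (gram (P := (⟨(X i).X, 0⟩ : Polarized 𝒱)) s)
      (fun _ => 1) (fun r : Free c₀ → Fin s.NT =>
        hS (P := (⟨(X i).X, 0⟩ : Polarized 𝒱)) s b z c₀ fun l => s.uT (r l)) := by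
  obtain ⟨m, M, f, hM, hf, hgen⟩ := hX.baseRep
  have hgal := fun i => (hX.orth i).galois
  have hgb := genBy_tower hgal (fun i => (hX.orth i).homEqNum) hf hgen hY
  have hG : IsGalois W χ (X i).X (X i).act := isGalois (hgal i)
  have h1 := hS_eqv (P := (⟨(X i).X, 0⟩ : Polarized 𝒱)) hb hG hP hΔ hz c₀
  have h2 := fun x y => kill_of_data (A := W.H Y.X) (T := fun j => trRep (hgal j)) (M := M)
    (χ := χ) (τ := Y.act) (LTower.finite hY) hgb (l := l)
    (fun j => oRep (hX.orth j)) (fun i j hij => not_isoUpTo (hX.notIso i j hij)) hi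
    (fun j hj h8 h8' => hX.eight i j hj.symm h8 h8')
    (fun a => hM a i) (lamb (P := (⟨(X i).X, 0⟩ : Polarized 𝒱)) χ s c₀ j)
    (h := hS (P := (⟨(X i).X, 0⟩ : Polarized 𝒱)) s b z c₀) h1 x y
  exact inv_of_kill (s := (1 : W.K)) (B := rform W (X i).X (transcendental W (X i).X))
    (fun u w => h2 u w) s.uT

/-- **Twisted classes on towers.** -/
theorem tw_tower (hX : OrthFamily χ l X Z) {Δ : Subgroup Γ} (hΔ : Δ.FiniteIndex)
    (hY : LTower X Z S L Y) : (∀ i ∈ S, AlgDefinedOver χ Δ (X i)) → ∀ ε : Γ → W.K, Pot ε →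
      (∀ I : Finset ι, (I : Set ι) ⊆ L →
        TwV W χ Δ (fun g => ε g * ∏ i ∈ I, hX.ds i g) Z.X Z.act) → TwV W χ Δ ε Y.X Y.act := by
  classical
  induction hY with
  | base =>
    intro _ ε _ hI
    have h1 := hI ∅ (by simp)
    simpa using h1
  | @small S L Y Y' i n hT hi hn hP ih =>
    obtain ⟨υ, h1, h2⟩ := hP
    intro hfix ε hε hI j z hzj hz
    obtain ⟨s, o, R, ho, hR⟩ := hX.sb i
    obtain ⟨b, hb⟩ := exists_monoBasis (ops := ops) (⟨(X i).X, 0⟩ : Polarized 𝒱) s.e n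
    obtain ⟨hε0, Δ', hΔ', hε1⟩ := hε
    have hinv := hX.inv_step hT hi (isPowAct h1 h2) hb (z := z) (j := j) (Δ := Δ ⊓ Δ')
      inferInstance (fun g hg => by rw [hz g hg.1, hε1 g hg.2, one_mul])
    refine tw_step (P := (⟨(X i).X, 0⟩ : Polarized 𝒱)) hb (hX.orth i).middle
      (isGalois (hX.orth i).galois) (isPowAct h1 h2) (hX.orth i).even hR ho
      (fun g hg a => hfix i (Set.mem_insert _ _) _ _ (s.alg a) g hg) hzj hε0 hz hinv
      (Or.inl ?_) ?_
    · have h3 := hn (hX.orth i).even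
      unfold transRank at h3
      rwa [Module.finrank_eq_card_basis s.uT, Fintype.card_fin] at h3
    · exact ih (fun a ha => hfix a (Set.mem_insert_of_mem _ ha)) ε ⟨hε0, Δ', hΔ', hε1⟩ hI
  | @large S L Y Y' i n hT hi hP ih =>
    obtain ⟨υ, h1, h2⟩ := hP
    intro hfix ε hε hI j z hzj hz
    obtain ⟨s, o, R, ho, hR⟩ := hX.sb i
    obtain ⟨b, hb⟩ := exists_monoBasis (ops := ops) (⟨(X i).X, 0⟩ : Polarized 𝒱) s.e n
    obtain ⟨hε0, Δ', hΔ', hε1⟩ := id hε
    have hinv := hX.inv_step hT hi (isPowAct h1 h2) hb (z := z) (j := j) (Δ := Δ ⊓ Δ')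
      inferInstance (fun g hg => by rw [hz g hg.1, hε1 g hg.2, one_mul])
    refine tw_step (P := (⟨(X i).X, 0⟩ : Polarized 𝒱)) hb (hX.orth i).middle
      (isGalois (hX.orth i).galois) (isPowAct h1 h2) (hX.orth i).even hR ho
      (fun g hg a => hfix i (Set.mem_insert _ _) _ _ (s.alg a) g hg) hzj hε0 hz hinv
      (Or.inr ?_) ?_
    · refine ih (fun a ha => hfix a (Set.mem_insert_of_mem _ ha)) (fun g => ε g * hX.ds i g)
        (hε.mul (hX.pot i)) fun I hIL => ?_
      have hiI : i ∉ I := fun h => hi (hT.sub (hIL h))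
      have h3 := hI (insert i I) (by
        rw [Finset.coe_insert]
        exact Set.insert_subset_insert hIL)
      simp only [Finset.prod_insert hiI, ← mul_assoc] at h3
      exact h3
    · exact ih (fun a ha => hfix a (Set.mem_insert_of_mem _ ha)) ε hε fun I hIL =>
        hI I (hIL.trans (Set.subset_insert _ _))

/-- **The classes on towers.** -/
theorem tc_tower (hX : OrthFamily χ l X Z) {Δ : Subgroup Γ} (hΔ : Δ.FiniteIndex)
    (hZ : TC W χ Δ Z.X Z.act) (hY : LTower X Z S L Y) : (∀ i ∈ S, AlgDefinedOver χ Δ (X i)) →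
      (∀ I : Finset ι, I.Nonempty → (I : Set ι) ⊆ L →
        TwV W χ Δ (fun g => ∏ i ∈ I, hX.ds i g) Z.X Z.act) → TC W χ Δ Y.X Y.act := by
  classical
  induction hY with
  | base => intro _ _; exact hZ
  | @small S L Y Y' i n hT hi hn hP ih =>
    obtain ⟨υ, h1, h2⟩ := hP
    intro hfix hI j z hzj hz
    obtain ⟨s, o, R, ho, hR⟩ := hX.sb i
    obtain ⟨b, hb⟩ := exists_monoBasis (ops := ops) (⟨(X i).X, 0⟩ : Polarized 𝒱) s.e n
    have hinv := hX.inv_step hT hi (isPowAct h1 h2) hb (z := z) (j := j) hΔ hz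
    refine step_of_Tgt' (P := (⟨(X i).X, 0⟩ : Polarized 𝒱)) (hX.orth i).homEqNum
      (hX.orth i).middle
      (isGalois (hX.orth i).galois) (isPowAct h1 h2) s
      (fun g hg a => hfix i (Set.mem_insert _ _) _ _ (s.alg a) g hg) hzj hz ?_
      (ih (fun a ha => hfix a (Set.mem_insert_of_mem _ ha)) hI)
    refine tgt_step (P := (⟨(X i).X, 0⟩ : Polarized 𝒱)) (ε := fun _ => 1) (Δ := Δ) (j := j) hb
      (hX.orth i).middle
      (isGalois (hX.orth i).galois) (isPowAct h1 h2) (hX.orth i).even hR ho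
      (fun g hg a => hfix i (Set.mem_insert _ _) _ _ (s.alg a) g hg) hzj
      (fun g hg => by rw [one_mul]; exact hz g hg) hinv rfl (Or.inl ?_)
    have h3 := hn (hX.orth i).even
    unfold transRank at h3
    rwa [Module.finrank_eq_card_basis s.uT, Fintype.card_fin] at h3
  | @large S L Y Y' i n hT hi hP ih =>
    obtain ⟨υ, h1, h2⟩ := hP
    intro hfix hI j z hzj hz
    obtain ⟨s, o, R, ho, hR⟩ := hX.sb i
    obtain ⟨b, hb⟩ := exists_monoBasis (ops := ops) (⟨(X i).X, 0⟩ : Polarized 𝒱) s.e n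
    have hinv := hX.inv_step hT hi (isPowAct h1 h2) hb (z := z) (j := j) hΔ hz
    refine step_of_Tgt' (P := (⟨(X i).X, 0⟩ : Polarized 𝒱)) (hX.orth i).homEqNum
      (hX.orth i).middle
      (isGalois (hX.orth i).galois) (isPowAct h1 h2) s
      (fun g hg a => hfix i (Set.mem_insert _ _) _ _ (s.alg a) g hg) hzj hz ?_
      (ih (fun a ha => hfix a (Set.mem_insert_of_mem _ ha)) fun I hne hIL =>
        hI I hne (hIL.trans (Set.subset_insert _ _)))
    refine tgt_step (P := (⟨(X i).X, 0⟩ : Polarized 𝒱)) (ε := fun _ => 1) (Δ := Δ) (j := j) hb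
      (hX.orth i).middle
      (isGalois (hX.orth i).galois) (isPowAct h1 h2) (hX.orth i).even hR ho
      (fun g hg a => hfix i (Set.mem_insert _ _) _ _ (s.alg a) g hg) hzj
      (fun g hg => by rw [one_mul]; exact hz g hg) hinv rfl (Or.inr ?_)
    refine tw_tower hX hΔ hT (fun a ha => hfix a (Set.mem_insert_of_mem _ ha))
      (fun g => 1 * hX.ds i g) (Pot.one.mul (hX.pot i)) fun I hIL => ?_
    have hiI : i ∉ I := fun h => hi (hT.sub (hIL h))
    have h3 := hI (insert i I) (Finset.insert_nonempty _ _) (by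
      rw [Finset.coe_insert]
      exact Set.insert_subset_insert hIL)
    simp only [Finset.prod_insert hiI] at h3
    simp only [one_mul]
    exact h3

/-- **Exponents smaller than the rank.** -/
theorem OrthFamily.small (hX : OrthFamily χ l X Z) (hY : LTower X Z S ∅ Y)
    (hZ : TateConjecture χ Z) : TateConjecture χ Y := by
  rintro j z hzj ⟨Δ, hΔ, hz⟩
  choose Δ' hΔ' hA using fun i => exists_algDefined (D := (⟨χ, 0, 1⟩ : Frob W.K Γ))
    (hX.orth i).galois
  have hS := LTower.finite hY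
  have := hS.to_subtype
  have h1 : (⨅ i : S, Δ' i).FiniteIndex := Subgroup.finiteIndex_iInf fun i => hΔ' i
  have h2 : (Δ ⊓ ⨅ i : S, Δ' i).FiniteIndex := inferInstance
  refine tc_tower hX h2 (tc_of_tate (D := (⟨χ, 0, 1⟩ : Frob W.K Γ)) hZ h2) hY
    (fun i hi => AlgDefined.mono (D := (⟨χ, 0, 1⟩ : Frob W.K Γ)) (hA i) ?_) ?_ j z hzj
    fun g hg => hz g hg.1
  · exact inf_le_right.trans (iInf_le (fun i : S => Δ' i) ⟨i, hi⟩)
  · intro I hne hI
    obtain ⟨i, hi⟩ := hne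
    exact absurd (hI hi) (Set.notMem_empty i)

/-- **All exponents.** -/
theorem OrthFamily.large (hX : OrthFamily χ l X Z) (hY : LTower X Z S L Y)
    (hZ : TateConjecture χ Z) {Δ : Subgroup Γ} (hΔ : Δ.FiniteIndex)
    (hA : ∀ i ∈ S, AlgDefinedOver χ Δ (X i)) (hAZ : AlgDefinedOver χ Δ Z)
    (hd : IndepOn Δ (fun i => discriminant χ (X i)) L) :
    TC W χ Δ Y.X Y.act := by
  refine tc_tower hX hΔ (tc_of_tate (D := (⟨χ, 0, 1⟩ : Frob W.K Γ)) hZ hΔ) hY hA
    fun I hne hI => ?_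
  refine twV_base (D := (⟨χ, 0, 1⟩ : Frob W.K Γ)) hZ hΔ hAZ (Pot.prod hX.pot I) ?_
  obtain ⟨g, hg, h1⟩ := hd I hne hI
  refine ⟨g, hg, fun h2 => h1 ?_⟩
  rw [← h2]
  exact Finset.prod_congr rfl fun i _ => disc_eq (hX.orth i).galois g

/-- the Tate conjecture over the fixed field of `Δ'` -/
theorem OrthFamily.over (hX : OrthFamily χ l X Z) (hY : LTower X Z S L Y)
    (hG : GaloisType χ Y) (hZ : TateConjecture χ Z) (Δ' : Subgroup Γ) (hΔ' : Δ'.FiniteIndex)
    (hL : L = ∅ ∨ ∃ Δ ≤ Δ', Δ.FiniteIndex ∧ (∀ i ∈ S, AlgDefinedOver χ Δ (X i)) ∧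
      AlgDefinedOver χ Δ Z ∧ IndepOn Δ (fun i => discriminant χ (X i)) L) :
    TateOver χ Δ' Y := by
  rcases hL with rfl | ⟨Δ, hle, hΔ, hA, hAZ, hd⟩
  · have h1 := hX.small hY hZ
    exact tateOver_of_tc hG fun j c hcj hc => h1 j c hcj ⟨Δ', hΔ', hc⟩
  · exact TateOver.mono (D := (⟨χ, 0, 1⟩ : Frob W.K Γ)) hG (hX.large hY hZ hΔ hA hAZ hd) hle

/-- the converse -/
theorem OrthFamily.conv' (hX : OrthFamily χ l X Z) (hY : LTower X Z S L Y)
    (hT : TateConjecture χ Y) : TateConjecture χ Z := by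
  rintro j c hcj ⟨Δ, hΔ, hc⟩
  exact hX.conv hY (tc_of_tate (D := (⟨χ, 0, 1⟩ : Frob W.K Γ)) hT hΔ) j c hcj hc

end Pool.Agent.Q71.TM
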