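import Pool.Agent.TH125.Gal.Pub
import Pool.Agent.Y127.G.SDefs

/-!
# Families of varieties of orthogonal type with maximal degenerations or K3 slopes: definitions
-/

set_option autoImplicit false

open CategoryTheory AlgebraicGeometry

universe u

namespace Pool.Agent.Q71.TM.P

open Pool.Agent.TH125.Gal Pool.Agent.Y127.G

/-- A character `χ` of `Γ` (the action on the Tate twists). -/
structure Tw (K : Type) [Field K] (Γ : Type) [Group Γ] where
  /-- the character -/
  χ : Γ →* Kˣ

/-- Local information: an element `g` of `Γ` (an element of an inertia group), or an element `F` of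
`Γ` (a Frobenius element) with an additive function `v` on the multiplicative group of `K` (a
valuation) and a number `c`. -/
inductive Loc (K : Type) [Field K] (Γ : Type) : Type
  | inertia (g : Γ)
  | frobenius (v : Additive Kˣ →+ ℚ) (F : Γ) (c : ℚ)

/-- The same element `g`, or the same element `F` and the same valuation. -/
def Loc.Same {K : Type} [Field K] {Γ : Type} (l l' : Loc K Γ) : Prop :=
  (∃ g, l = .inertia g ∧ l' = .inertia g) ∨
    ∃ v F c c', l = .frobenius v F c ∧ l' = .frobenius v F c'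

section Alg

variable {K : Type} [Field K] {A : Type} [Ring A] [Algebra K A]
  {A' : Type} [Ring A'] [Algebra K A'] {Γ : Type} [Group Γ]

/-- The operator `g - 1`. -/
noncomputable def nil (ρ : Γ →* (A ≃ₐ[K] A)) (g : Γ) : A →ₗ[K] A :=
  (ρ g).toLinearMap - LinearMap.id

/-- The element `F` acts on `U` with the slopes `s` (with multiplicities). -/
def SlopesOn [FiniteDimensional K A] (ρ : Γ →* (A ≃ₐ[K] A)) (U : Submodule K A)
    (v : Additive Kˣ →+ ℚ) (F : Γ) (s : Multiset ℚ) : Prop :=
  ∃ hU : ∀ x ∈ U, (ρ F).toLinearMap x ∈ U, slopes v ((ρ F).toLinearMap.restrict hU) = s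

/-- Either the element `g` acts on `T` like an element of the inertia group at a place of maximal
degeneration (type III): `(g - 1) ^ 3 = 0`, `(g - 1) ^ 2 ≠ 0`, and the image of `g - 1` has
dimension `2`; or `F` acts on `T` with the slopes `h + c` and `h - c`, once each, and `h`, where
`c > 0`. -/
def TypeOn [FiniteDimensional K A] (ρ : Γ →* (A ≃ₐ[K] A)) (T : Submodule K A) : Loc K Γ → Prop
  | .inertia g => (∀ x ∈ T, nil ρ g (nil ρ g (nil ρ g x)) = 0) ∧
      (∃ x ∈ T, nil ρ g (nil ρ g x) ≠ 0) ∧ Module.finrank K (T.map (nil ρ g)) = 2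
  | .frobenius v F c => 0 < c ∧ ∃ h : ℚ, SlopesOn ρ T v F
      ((h + c) ::ₘ (h - c) ::ₘ Multiset.replicate (Module.finrank K T - 2) h)

/-- The space `U` is small with respect to the rank `r`, locally: `g` acts on `U` with
`(g - 1) ^ 2 = 0` and the square of the rank of `g - 1` is smaller than `r - 2`; or the number of the
pairs of slopes of `F` on `U` with difference `c` is smaller than `r - 2`. -/
def LocSmallOn [FiniteDimensional K A] (ρ : Γ →* (A ≃ₐ[K] A)) (U : Submodule K A) (r : ℕ) :
    Loc K Γ → Prop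
  | .inertia g => (∀ x ∈ U, nil ρ g (nil ρ g x) = 0) ∧
      Module.finrank K (U.map (nil ρ g)) ^ 2 + 2 < r
  | .frobenius v F c => ∃ s, SlopesOn ρ U v F s ∧ gaps s c + 2 < r

/-- The space `U` carries a nondegenerate form `B` with `B(x, y) = s B(y, x)` which is invariant up
to a character. -/
def FormOn (ρ : Γ →* (A ≃ₐ[K] A)) (U : Submodule K A) (s : K) : Prop :=
  ∃ (μ : Γ →* Kˣ) (B : A →ₗ[K] A →ₗ[K] K), (∀ x ∈ U, ∀ y ∈ U, B x y = s * B y x) ∧
    (∀ x ∈ U, (∀ y ∈ U, B x y = 0) → x = 0) ∧
    ∀ g, ∀ x ∈ U, ∀ y ∈ U, B (ρ g x) (ρ g y) = (μ g : K) * B x y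

/-- The space `U` is small with respect to `l` and the rank `r`: locally, or `U` carries a symmetric
form and `dim U < r`, or `U` carries an alternating form and `dim U + 1 < r`. -/
def SmallFor [FiniteDimensional K A] (ρ : Γ →* (A ≃ₐ[K] A)) (U : Submodule K A) (l : Loc K Γ)
    (r : ℕ) : Prop :=
  LocSmallOn ρ U r l ∨
  (FormOn ρ U 1 ∧ Module.finrank K U < r) ∨ (FormOn ρ U (-1) ∧ Module.finrank K U + 1 < r)

/-- The algebra is generated by finitely many stable subspaces which are small with respect to all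
`l i`, `r i`. -/
def GenSmallFor [FiniteDimensional K A] {ι : Type} (l : ι → Loc K Γ) (r : ι → ℕ)
    (ρ : Γ →* (A ≃ₐ[K] A)) : Prop :=
  ∃ (m : ℕ) (U : Fin m → Submodule K A), (∀ a i, SmallFor ρ (U a) (l i) (r i)) ∧
    (∀ a g, ∀ x ∈ U a, ρ g x ∈ U a) ∧ Algebra.adjoin K (⋃ a, (U a : Set A)) = ⊤

/-- The space `T` is contained in `G`, has the dimension `r`, which is `3` or at least `5`, is
irreducible under all subgroups of finite index, and satisfies `TypeOn`. -/
def OrthAct [FiniteDimensional K A] (l : Loc K Γ) (r : ℕ) (ρ : Γ →* (A ≃ₐ[K] A))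
    (T G : Submodule K A) : Prop :=
  T ≤ G ∧ Module.finrank K T = r ∧ (r = 3 ∨ 5 ≤ r) ∧ IrredAct ρ T ∧ TypeOn ρ T l

/-- There are a linear isomorphism `ψ : T → T'` and a function `ε` with
`ψ (g x) = ε(g) g ψ(x)`. -/
def TwistIso (ρ : Γ →* (A ≃ₐ[K] A)) (T : Submodule K A) (ρ' : Γ →* (A' ≃ₐ[K] A'))
    (T' : Submodule K A') : Prop :=
  ∃ (ψ : T ≃ₗ[K] T') (ε : Γ → K), ∀ (g : Γ) (x y : T), ρ g x = y →
    (ψ y : A') = ε g • ρ' g (ψ x)

end Alg

open Pool.Agent.H914 Pool.Agent.H914.VarClass Pool.Agent.H914.VarClass.Obj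
  Pool.Agent.H914.WeilCohomology

variable {k : Type u} [Field k] {𝒱 : VarClass k} {ops : CycleOps 𝒱}
  {W : WeilCohomology.{u, 0} ops} {Γ : Type} [Group Γ]

/-- The action on the cohomology of `Y` has the formal properties of an action of a Galois
group. -/
def GaloisType (D : Tw W.K Γ) (Y : GVar W Γ) : Prop :=
  IsGaloisAct D.χ (W.gr Y.X) Y.X.dim (W.tr Y.X) (algClasses W Y.X) Y.act

/-- `Γ` acts on the cohomology of `X` like a Galois group; numerical and homological equivalence
coincide for `X`; the dimension of `X` is even; the transcendental cohomology is in the middle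
degree and satisfies `OrthAct`. -/
structure OrthType (D : Tw W.K Γ) (l : Loc W.K Γ) (r : ℕ) (X : GVar W Γ) : Prop where
  galois : GaloisType D X
  homEqNum : HomEqNum W X.X
  even : Even X.X.dim
  act : OrthAct l r X.act (transcendental W X.X) (W.gr X.X X.X.dim)

/-- The `X i` are of orthogonal type; the transcendental parts of different `X i` are not isomorphic
up to a function on `Γ`; the local information agrees for those with rank `8`; and the cohomology
algebra of `Z` is generated by subspaces which are small with respect to all `X i`. -/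
structure OrthFamily (D : Tw W.K Γ) {ι : Type} (l : ι → Loc W.K Γ) (r : ι → ℕ)
    (X : ι → GVar W Γ) (Z : GVar W Γ) : Prop where
  orth : ∀ i, OrthType D (l i) (r i) (X i)
  notIso : ∀ i j, i ≠ j → ¬TwistIso (X i).act (transcendental W (X i).X) (X j).act
    (transcendental W (X j).X)
  eight : ∀ i j, i ≠ j → r i = 8 → r j = 8 → (l i).Same (l j)
  base : GenSmallFor l r Z.act

/-- The actions of `Γ` on the cohomology algebra of `X`. -/
def Acts (W : WeilCohomology.{u, 0} ops) (Γ : Type) [Group Γ] (X : 𝒱.Obj) : Type :=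
  Γ →* (W.H X ≃ₐ[W.K] W.H X)

/-- The map `f ^ *` is equivariant. -/
def Compat {A B : 𝒱.Obj} (f : B ⟶ A) (ρ : Acts W Γ A) (υ : Acts W Γ B) : Prop :=
  Intertwines (W.map f) ρ υ

end Pool.Agent.Q71.TM.P
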